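import Mathlib

/-!
# Combinatorics for the existence of arithmetically Cohen-Macaulay monomial curves of given type

For a numerical semigroup `T` with set of pseudo-Frobenius numbers `P`, smallest one `f1` and
largest one `F`, and parameters `e ≥ 2F+3`, `M ≥ 6e`, we consider
`A = (T ∩ [0,M]) \ {w + f : f ∈ P} ∪ {D, d}`,
`w = M + 1 - f1 - e`, `D = M + e`, `d = 2M + 1 - f1 = D + w`.
-/

namespace Pool.Agent.V1139.PMC

/-- `K A m` is the set of all sums of `m` elements of `A`. -/
def K (A : Set ℕ) : ℕ → Set ℕ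
  | 0 => {0}
  | (m + 1) => {s | ∃ x ∈ K A m, ∃ a ∈ A, s = x + a}

theorem K_zero {A : Set ℕ} {x : ℕ} : x ∈ K A 0 ↔ x = 0 := by
  simp [K]

theorem K_add {A : Set ℕ} {m x a : ℕ} (hx : x ∈ K A m) (ha : a ∈ A) : x + a ∈ K A (m + 1) :=
  ⟨x, hx, a, ha, rfl⟩

theorem K_succ {A : Set ℕ} (h0 : 0 ∈ A) {m x : ℕ} (hx : x ∈ K A m) : x ∈ K A (m + 1) := by
  simpa using K_add hx h0

theorem K_mono {A : Set ℕ} (h0 : 0 ∈ A) {m p x : ℕ} (hmp : m ≤ p) (hx : x ∈ K A m) :
    x ∈ K A p := by
  induction p, hmp using Nat.le_induction with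
  | base => exact hx
  | succ p _ ih => exact K_succ h0 ih

theorem K_one {A : Set ℕ} {a : ℕ} (ha : a ∈ A) : a ∈ K A 1 := by
  have := K_add (A := A) (m := 0) (x := 0) (K_zero.2 rfl) ha
  simpa using this

theorem K_one_iff {A : Set ℕ} {a : ℕ} : a ∈ K A 1 ↔ a ∈ A := by
  constructor
  · rintro ⟨x, hx, a, ha, rfl⟩
    rw [K_zero.1 hx]; simpa using ha
  · exact K_one

theorem K_two {A : Set ℕ} {a b : ℕ} (ha : a ∈ A) (hb : b ∈ A) : a + b ∈ K A 2 :=
  K_add (K_one ha) hb

theorem K_sub {A B : Set ℕ} (h : A ⊆ B) {m x : ℕ} (hx : x ∈ K A m) : x ∈ K B m := by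
  induction m generalizing x with
  | zero => exact hx
  | succ m ih =>
    obtain ⟨y, hy, a, ha, rfl⟩ := hx
    exact K_add (ih hy) (h ha)

theorem K_add_add {A : Set ℕ} {m p x y : ℕ} (hx : x ∈ K A m) (hy : y ∈ K A p) :
    x + y ∈ K A (m + p) := by
  induction p generalizing y with
  | zero => rw [K_zero.1 hy]; simpa using hx
  | succ p ih =>
    obtain ⟨z, hz, a, ha, rfl⟩ := hy
    have := K_add (ih hz) ha
    rw [add_assoc x z a] at this
    exact this

theorem K_mul {A : Set ℕ} {a : ℕ} (ha : a ∈ A) (j : ℕ) : j * a ∈ K A j := by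
  induction j with
  | zero => simp [K_zero]
  | succ j ih =>
    have := K_add ih ha
    rwa [add_mul, one_mul]

theorem K_le {A : Set ℕ} {M : ℕ} (h : ∀ a ∈ A, a ≤ M) {m x : ℕ} (hx : x ∈ K A m) :
    x ≤ m * M := by
  induction m generalizing x with
  | zero => rw [K_zero.1 hx]; simp
  | succ m ih =>
    obtain ⟨y, hy, a, ha, rfl⟩ := hx
    have h1 := ih hy
    have h2 := h a ha
    rw [add_mul]; omega

theorem K_mem {A : Set ℕ} {T : AddSubmonoid ℕ} (h : A ⊆ T) {m x : ℕ} (hx : x ∈ K A m) :
    x ∈ T := by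
  induction m generalizing x with
  | zero => rw [K_zero.1 hx]; exact T.zero_mem
  | succ m ih =>
    obtain ⟨y, hy, a, ha, rfl⟩ := hx
    exact T.add_mem (ih hy) (h ha)

/-- The numerical set-up. -/
structure Setup (T : AddSubmonoid ℕ) (P : Set ℕ) (F f1 e M w D d : ℕ) : Prop where
  big : ∀ n, F < n → n ∈ T
  Pgap : ∀ f ∈ P, f ∉ T
  Padd : ∀ f ∈ P, ∀ s ∈ T, s ≠ 0 → f + s ∈ T
  Pmax : ∀ g, g ∉ T → g ∉ P → ∃ f ∈ P, ∃ s ∈ T, s ≠ 0 ∧ f = g + s
  hF : F ∈ P
  hf1 : f1 ∈ P
  hle : ∀ f ∈ P, f1 ≤ f
  h1 : 1 ≤ f1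
  he : 2 * F + 3 ≤ e
  hM : 6 * e ≤ M
  hw : w + f1 + e = M + 1
  hD : D = M + e
  hd : d + f1 = 2 * M + 1

/-- The small elements. -/
def A0 (T : AddSubmonoid ℕ) (P : Set ℕ) (M w : ℕ) : Set ℕ :=
  {a | a ∈ T ∧ a ≤ M ∧ ∀ f ∈ P, a ≠ w + f}

/-- The set of exponents of the curve. -/
def AA (T : AddSubmonoid ℕ) (P : Set ℕ) (M w D d : ℕ) : Set ℕ :=
  {a | a ∈ A0 T P M w ∨ a = D ∨ a = d}

variable {T : AddSubmonoid ℕ} {P : Set ℕ} {F f1 e M w D d : ℕ}

namespace Setup

theorem gap_le (h : Setup T P F f1 e M w D d) {g : ℕ} (hg : g ∉ T) : g ≤ F := by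
  by_contra hc
  exact hg (h.big g (by omega))

theorem P_le (h : Setup T P F f1 e M w D d) {f : ℕ} (hf : f ∈ P) : f ≤ F :=
  h.gap_le (h.Pgap f hf)

theorem f1_le (h : Setup T P F f1 e M w D d) : f1 ≤ F := h.hle F h.hF

theorem A0_sub (_h : Setup T P F f1 e M w D d) : A0 T P M w ⊆ AA T P M w D d :=
  fun _ ha => Or.inl ha

theorem mem_D (_h : Setup T P F f1 e M w D d) : D ∈ AA T P M w D d := Or.inr (Or.inl rfl)

theorem mem_d (_h : Setup T P F f1 e M w D d) : d ∈ AA T P M w D d := Or.inr (Or.inr rfl)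

/-- elements up to `w` -/
theorem low (h : Setup T P F f1 e M w D d) {a : ℕ} (ha : a ∈ T) (hw : a ≤ w) :
    a ∈ A0 T P M w := by
  have h1 := h.hw
  have h2 := h.h1
  have h3 := h.he
  refine ⟨ha, by omega, fun f hf hc => ?_⟩
  have := h.hle f hf
  omega

/-- elements of `(w + F, M]` -/
theorem high (h : Setup T P F f1 e M w D d) {a : ℕ} (ha : w + F < a) (hM : a ≤ M) :
    a ∈ A0 T P M w := by
  refine ⟨h.big a (by omega), hM, fun f hf hc => ?_⟩
  have := h.P_le hf
  omega

theorem zero_mem (h : Setup T P F f1 e M w D d) : 0 ∈ A0 T P M w :=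
  h.low T.zero_mem (by omega)

theorem zero_mem' (h : Setup T P F f1 e M w D d) : 0 ∈ AA T P M w D d :=
  Or.inl h.zero_mem

theorem AA_sub_T (h : Setup T P F f1 e M w D d) : AA T P M w D d ⊆ T := by
  have h1 := h.hw
  have h3 := h.he
  have h4 := h.hM
  have h5 := h.hD
  have h6 := h.hd
  have h7 := h.f1_le
  rintro a (ha | rfl | rfl)
  · exact ha.1
  · exact h.big _ (by omega)
  · exact h.big _ (by omega)

/-- halving -/
theorem halves (h : Setup T P F f1 e M w D d) {s : ℕ} (h1 : 2 * F + 2 ≤ s) (h2 : s ≤ 2 * w) :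
    s ∈ K (A0 T P M w) 2 := by
  have ha : s / 2 ∈ A0 T P M w := h.low (h.big _ (by omega)) (by omega)
  have hb : s - s / 2 ∈ A0 T P M w := h.low (h.big _ (by omega)) (by omega)
  have := K_two ha hb
  have hs : s / 2 + (s - s / 2) = s := by omega
  rwa [hs] at this

theorem halves' (h : Setup T P F f1 e M w D d) {s : ℕ} (h1 : s ∈ T) (h2 : s ≤ 2 * w) :
    s ∈ K (AA T P M w D d) 2 := by
  have h7 := h.f1_le
  have h3 := h.he
  have h4 := h.hM
  have h5 := h.hw
  by_cases hs : 2 * F + 2 ≤ s
  · exact K_sub h.A0_sub (h.halves hs h2)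
  · exact K_succ h.zero_mem' (K_one (h.A0_sub (h.low h1 (by omega))))

/-- the key lemma -/
theorem key (h : Setup T P F f1 e M w D d) (p : ℕ) : ∀ s : ℕ, s ∈ T →
    s + 1 ≤ p * M + f1 + e → s ∈ K (AA T P M w D d) (p + 1) := by
  have h1 := h.hw
  have h2 := h.h1
  have h3 := h.he
  have h4 := h.hM
  have h5 := h.hD
  have h6 := h.hd
  have h7 := h.f1_le
  induction p with
  | zero =>
    intro s hs hle
    exact K_one (h.A0_sub (h.low hs (by omega)))
  | succ p ih =>
    intro s hs hle
    by_cases hp : p = 0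
    · subst hp
      exact h.halves' hs (by omega)
    · by_cases hb : D + F + 1 ≤ s
      · have hs' : s - D ∈ T := h.big _ (by omega)
        have := ih (s - D) hs' (by rw [add_mul] at hle; omega)
        have h8 := K_add this h.mem_D
        have h9 : s - D + D = s := by omega
        rwa [h9] at h8
      · have h8 := h.halves' hs (by omega)
        exact K_mono h.zero_mem' (by omega) h8

/-- decomposition of a sum -/
theorem decomp {m x : ℕ} (hx : x ∈ K (AA T P M w D d) m) :
    ∃ c j p X, c + j + p = m ∧ X ∈ K (A0 T P M w) p ∧ x = c * d + j * D + X := by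
  induction m generalizing x with
  | zero =>
    rw [K_zero] at hx
    exact ⟨0, 0, 0, 0, rfl, K_zero.2 rfl, by simp [hx]⟩
  | succ m ih =>
    obtain ⟨y, hy, a, ha, rfl⟩ := hx
    obtain ⟨c, j, p, X, h1, h2, h3⟩ := ih hy
    rcases ha with ha | rfl | rfl
    · exact ⟨c, j, p + 1, X + a, by omega, K_add h2 ha, by omega⟩
    · exact ⟨c, j + 1, p, X, by omega, h2, by rw [h3]; ring⟩
    · exact ⟨c + 1, j, p, X, by omega, h2, by rw [h3]; ring⟩

theorem le_M {m X : ℕ} (hx : X ∈ K (A0 T P M w) m) : X ≤ m * M :=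
  K_le (fun _ ha => ha.2.1) hx

/-- The Cohen-Macaulay property. -/
theorem cm (h : Setup T P F f1 e M w D d) {s m : ℕ} (hs : s ∈ T)
    (hx : s + d ∈ K (AA T P M w D d) m) : ∃ m', m = m' + 1 ∧ s ∈ K (AA T P M w D d) m' := by
  have h1 := h.hw
  have h2 := h.h1
  have h3 := h.he
  have h4 := h.hM
  have h5 := h.hD
  have h6 := h.hd
  have h7 := h.f1_le
  obtain ⟨c, j, p, X, e1, e2, e3⟩ := decomp hx
  have hXM := le_M e2
  have hX' := K_sub h.A0_sub e2
  rcases c with _ | c
  · rcases j with _ | _ | j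
    · -- only small ones
      rcases p with _ | _ | p
      · simp at e3 hXM; omega
      · simp at e3 hXM; omega
      · refine ⟨p + 1, by omega, ?_⟩
        apply h.key p s hs
        have : (p + 1 + 1) * M = p * M + 2 * M := by ring
        omega
    · -- one D
      rcases p with _ | p
      · simp at e3 hXM; omega
      · refine ⟨p + 1, by omega, ?_⟩
        apply h.key p s hs
        have : (p + 1) * M = p * M + M := by ring
        omega
    · -- at least two D
      have ha : 2 * D - d ∈ A0 T P M w := h.low (h.big _ (by omega)) (by omega)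
      refine ⟨j + 1 + p, by omega, ?_⟩
      have := K_add_add (K_add (K_mul h.mem_D j) (h.A0_sub ha)) hX'
      have h8 : j * D + (2 * D - d) + X = s := by
        have : (j + 1 + 1) * D = j * D + 2 * D := by ring
        omega
      rwa [h8] at this
  · refine ⟨c + j + p, by omega, ?_⟩
    have := K_add_add (K_add_add (K_mul h.mem_d c) (K_mul h.mem_D j)) hX'
    have h8 : c * d + j * D + X = s := by
      have : (c + 1) * d = c * d + d := by ring
      omega
    rwa [h8] at this

/-- the top elements are not sums of two -/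
theorem top_not_two (h : Setup T P F f1 e M w D d) {f : ℕ} (hf : f ∈ P) :
    d + f ∉ K (AA T P M w D d) 2 := by
  have h1 := h.hw
  have h2 := h.h1
  have h3 := h.he
  have h4 := h.hM
  have h5 := h.hD
  have h6 := h.hd
  have h7 := h.f1_le
  have h8 := h.hle f hf
  have h9 := h.P_le hf
  intro hx
  obtain ⟨c, j, p, X, e1, e2, e3⟩ := decomp hx
  have hXM := le_M e2
  rcases c with _ | _ | _ | c
  · rcases j with _ | _ | _ | j
    · have hp : p = 2 := by omega
      subst hp
      omega
    · have hp : p = 1 := by omega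
      subst hp
      rw [K_one_iff] at e2
      exact e2.2.2 f hf (by omega)
    · omega
    · omega
  · rcases j with _ | _ | j
    · have hp : p = 1 := by omega
      subst hp
      rw [K_one_iff] at e2
      have : X = f := by omega
      exact h.Pgap f hf (this ▸ e2.1)
    · omega
    · omega
  · have : (0 + 1 + 1) * d = 2 * d := by ring
    omega
  · omega

theorem top_three (h : Setup T P F f1 e M w D d) {f : ℕ} (hf : f ∈ P) :
    d + f ∈ K (AA T P M w D d) 3 := by
  have h1 := h.hw
  have h2 := h.h1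
  have h3 := h.he
  have h4 := h.hM
  have h5 := h.hD
  have h6 := h.hd
  have h7 := h.f1_le
  have h9 := h.P_le hf
  have ha : F + 1 ∈ A0 T P M w := h.low (h.big _ (by omega)) (by omega)
  have hb : w + f - (F + 1) ∈ A0 T P M w := h.low (h.big _ (by omega)) (by omega)
  have := K_add (K_two h.mem_D (h.A0_sub ha)) (h.A0_sub hb)
  have h8 : D + (F + 1) + (w + f - (F + 1)) = d + f := by omega
  rwa [h8] at this

/-- Everything in the Apery set is a sum of three elements. -/
theorem all_three (h : Setup T P F f1 e M w D d) {s : ℕ} (hs : s ∈ T) (hle : s ≤ d + F) :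
    s ∈ K (AA T P M w D d) 3 := by
  have h1 := h.hw
  have h2 := h.h1
  have h3 := h.he
  have h4 := h.hM
  have h5 := h.hD
  have h6 := h.hd
  have h7 := h.f1_le
  exact h.key 2 s hs (by omega)

/-- The extension property: every element of the Apery set other than the top ones can be
multiplied by a variable. -/
theorem extend (h : Setup T P F f1 e M w D d) {s : ℕ} (hs : s ∈ T)
    (hsd : ∀ r ∈ T, s ≠ d + r) (hP : ∀ f ∈ P, s ≠ d + f) :
    ∃ m a, a ∈ AA T P M w D d ∧ s ∈ K (AA T P M w D d) m ∧ s + a ∉ K (AA T P M w D d) m ∧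
      ∀ r ∈ T, s + a ≠ d + r := by
  have h1 := h.hw
  have h2 := h.h1
  have h3 := h.he
  have h4 := h.hM
  have h5 := h.hD
  have h6 := h.hd
  have h7 := h.f1_le
  by_cases c0 : s = 0
  · subst c0
    refine ⟨0, F + 1, h.A0_sub (h.low (h.big _ (by omega)) (by omega)), K_zero.2 rfl, ?_, ?_⟩
    · rw [K_zero]; omega
    · intro r _ hr; omega
  by_cases c1 : s ∈ AA T P M w D d
  · -- degree one
    have notin : ∀ x, M < x → x ≠ D → x < d → x ∉ K (AA T P M w D d) 1 := by
      intro x x1 x2 x3 x4
      rw [K_one_iff] at x4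
      rcases x4 with x4 | x4 | x4
      · have := x4.2.1; omega
      · omega
      · omega
    have fin : ∀ a, a ∈ AA T P M w D d → M < s + a → s + a ≠ D → s + a < d →
        ∃ m a, a ∈ AA T P M w D d ∧ s ∈ K (AA T P M w D d) m ∧ s + a ∉ K (AA T P M w D d) m ∧
      ∀ r ∈ T, s + a ≠ d + r := by
      intro a a1 a2 a3 a4
      exact ⟨1, a, a1, K_one c1, notin _ a2 a3 a4, fun r _ hr => by omega⟩
    rcases c1 with c1' | c1' | c1'
    · have hsM := c1'.2.1
      by_cases c2 : s + f1 ≤ M
      · by_cases c3 : s = e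
        · refine fin (M - 1) (h.A0_sub (h.high (by omega) (by omega))) ?_ ?_ ?_ <;> omega
        · refine fin M (h.A0_sub (h.high (by omega) (by omega))) ?_ ?_ ?_ <;> omega
      · refine fin (F + 1) (h.A0_sub (h.low (h.big _ (by omega)) (by omega))) ?_ ?_ ?_ <;> omega
    · refine fin (F + 1) (h.A0_sub (h.low (h.big _ (by omega)) (by omega))) ?_ ?_ ?_ <;> omega
    · exact absurd (show s = d + 0 by omega) (hsd 0 T.zero_mem)
  -- degree two
  have fin : ∀ a f, f ∈ P → a ∈ AA T P M w D d → s ∈ K (AA T P M w D d) 2 → s + a = d + f →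
      ∃ m a, a ∈ AA T P M w D d ∧ s ∈ K (AA T P M w D d) m ∧ s + a ∉ K (AA T P M w D d) m ∧
      ∀ r ∈ T, s + a ≠ d + r := by
    intro a f hf ha hs2 hsa
    refine ⟨2, a, ha, hs2, hsa ▸ h.top_not_two hf, fun r hr hr' => ?_⟩
    have : r = f := by omega
    exact h.Pgap f hf (this ▸ hr)
  by_cases c2 : d ≤ s
  · -- s = d + g
    have hg : s - d ∉ T := fun hc => hsd _ hc (by omega)
    have hgF := h.gap_le hg
    have hgP : s - d ∉ P := fun hc => hP _ hc (by omega)
    obtain ⟨f, hf, t, ht, ht0, hft⟩ := h.Pmax _ hg hgP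
    have hfF := h.P_le hf
    have ha : t ∈ AA T P M w D d := h.A0_sub (h.low ht (by omega))
    refine fin t f hf ha ?_ (by omega)
    have hb : w + (s - d) ∈ A0 T P M w := by
      refine ⟨h.big _ (by omega), by omega, fun f' hf' hc => ?_⟩
      have : s - d = f' := by omega
      exact hgP (this ▸ hf')
    have := K_two h.mem_D (h.A0_sub hb)
    have h8 : D + (w + (s - d)) = s := by omega
    rwa [h8] at this
  · by_cases c3 : s ≤ M
    · -- s = w + f
      have : ¬ ∀ f ∈ P, s ≠ w + f := by
        intro hc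
        exact c1 (h.A0_sub ⟨hs, c3, hc⟩)
      push Not at this
      obtain ⟨f, hf, hsf⟩ := this
      exact fin D f hf h.mem_D (h.halves' hs (by omega)) (by omega)
    · have hsD : s ≠ D := fun hc => c1 (hc ▸ h.mem_D)
      -- s is a sum of two
      have hs2 : s ∈ K (AA T P M w D d) 2 := by
        by_cases c4 : s ≤ 2 * w
        · exact h.halves' hs c4
        · -- s = 2M - k
          by_cases c5 : 2 * M - s < e - F
          · have ha : M ∈ A0 T P M w := h.high (by omega) le_rfl
            have hb : s - M ∈ A0 T P M w := h.high (by omega) (by omega)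
            have := K_two (h.A0_sub ha) (h.A0_sub hb)
            have h8 : M + (s - M) = s := by omega
            rwa [h8] at this
          · -- k between e - F and 2(f1+e) - 2
            by_cases c8 : e + f1 - 1 ≤ 2 * M - s
            · have ha : M ∈ A0 T P M w := h.high (by omega) le_rfl
              have hb : s - M ∈ A0 T P M w := h.low (h.big _ (by omega)) (by omega)
              have := K_two (h.A0_sub ha) (h.A0_sub hb)
              have h8 : M + (s - M) = s := by omega
              rwa [h8] at this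
            · have ha : M - (2 * M - s) / 2 ∈ A0 T P M w := h.high (by omega) (by omega)
              have hb : s - (M - (2 * M - s) / 2) ∈ A0 T P M w := h.high (by omega) (by omega)
              have := K_two (h.A0_sub ha) (h.A0_sub hb)
              have h8 : M - (2 * M - s) / 2 + (s - (M - (2 * M - s) / 2)) = s := by omega
              rwa [h8] at this
      by_cases c6 : d - s ≤ F
      · refine fin (F + (d - s)) F h.hF (h.A0_sub (h.low (h.big _ (by omega)) (by omega))) hs2
          (by omega)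
      · by_cases c7 : ∀ f ∈ P, f1 + (d - s) ≠ w + f
        · refine fin (f1 + (d - s)) f1 h.hf1 (h.A0_sub ⟨h.big _ (by omega), by omega, c7⟩) hs2
            (by omega)
        · push Not at c7
          obtain ⟨f, hf, hfe⟩ := c7
          have hfF := h.P_le hf
          have hf1 := h.hle f hf
          have : f ≠ f1 := by
            rintro rfl
            omega
          refine fin (F + (d - s)) F h.hF (h.A0_sub (h.high (by omega) (by omega))) hs2
            (by omega)

end Setup

end Pool.Agent.V1139.PMC
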